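import Pool.Agent.R612.HG.Graph

/-!
# Every model of ACFO interprets a random `(n + 1)`-hypergraph

The models of ACFO (`IsACFO`, with the groups `𝕌_(p)`, the theories `T_{m,p}`, multiplicatively
large quasi-affine varieties and the density axiom), random hypergraphs (`IsRandomHypergraph`) and
interpretations with parameters (`InterpretsRandomHypergraph`) are defined in
`Pool.Agent.R612.HG.Defs`.

The hypergraph lives on `(F^×) ^ 2`, ordered lexicographically. Let `v` be the largest element of an
`(n + 1)`-subset and let `a_1 > ... > a_n` be the others. The subset is an edge if the element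
`v_2 + ∑_i (a_{i,1} v_1 ^ (2 i) + a_{i,2} v_1 ^ (2 i + 1))` is nonzero and below a fixed `e > 1`. For
finitely many given `n`-sets the polynomials `v_2 + q_a(v_1)` are different irreducible polynomials, so
their values, and `v_1`, `v_2`, trace a multiplicatively large variety; the density axiom
gives a `v` with `v_1` above all given elements and with all these values in prescribed intervals.
-/

set_option autoImplicit false

universe u

namespace Pool.Agent.Results.MP_224b2b_lc.RandomHypergraphs

open FirstOrder FirstOrder.Language Pool.Agent.R612.HG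

section definability

variable {F : Type u} [Field F] {lt : Fˣ → Fˣ → Prop} {P : (n : ℕ) → Fin n → Fˣ → Prop}
  {α : Type}

/-- functions given by a term with parameters -/
def TF (S : LC.Structure F) (f : (α → F) → F) : Prop :=
  ∃ t : (LC[[(Set.univ : Set F)]]).Term α, ∀ w, t.realize w = f w

theorem TF.var (S : LC.Structure F) (a : α) : TF S fun w : α → F => w a :=
  ⟨Term.var a, fun _ => rfl⟩

theorem TF.const (S : LC.Structure F) (c : F) : TF S fun _ : α → F => c :=
  ⟨Language.Constants.term ((LC).con (⟨c, trivial⟩ : (Set.univ : Set F))), fun w => by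
    simp⟩

theorem TF.add {f g : (α → F) → F} (hf : TF (strC lt P) f) (hg : TF (strC lt P) g) :
    TF (strC lt P) fun w => f w + g w := by
  let _ : LC.Structure F := strC lt P
  obtain ⟨s, hs⟩ := hf
  obtain ⟨t, ht⟩ := hg
  refine ⟨((LC).lhomWithConstants (Set.univ : Set F)).onFunction (FunC.add : LC.Functions 2) |>.apply₂ s t, fun w => ?_⟩
  change _ = f w + g w
  rw [← hs w, ← ht w, Term.realize_functions_apply₂]
  rfl

theorem TF.mul {f g : (α → F) → F} (hf : TF (strC lt P) f) (hg : TF (strC lt P) g) :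
    TF (strC lt P) fun w => f w * g w := by
  let _ : LC.Structure F := strC lt P
  obtain ⟨s, hs⟩ := hf
  obtain ⟨t, ht⟩ := hg
  refine ⟨((LC).lhomWithConstants (Set.univ : Set F)).onFunction (FunC.mul : LC.Functions 2) |>.apply₂ s t, fun w => ?_⟩
  change _ = f w * g w
  rw [← hs w, ← ht w, Term.realize_functions_apply₂]
  rfl

theorem TF.pow {f : (α → F) → F} (hf : TF (strC lt P) f) (k : ℕ) :
    TF (strC lt P) fun w => f w ^ k := by
  induction k with
  | zero =>
    simp only [pow_zero]
    exact TF.const _ 1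
  | succ k ih =>
    simp only [pow_succ]
    exact ih.mul hf

theorem TF.sum {ι : Type} (s : Finset ι) {f : ι → (α → F) → F}
    (hf : ∀ i, TF (strC lt P) (f i)) : TF (strC lt P) fun w => ∑ i ∈ s, f i w := by
  classical
  induction s using Finset.induction_on with
  | empty =>
    simp only [Finset.sum_empty]
    exact TF.const _ 0
  | insert i s hi ih =>
    simp only [Finset.sum_insert hi]
    exact (hf i).add ih

theorem def_eq {S : LC.Structure F} {f g : (α → F) → F} (hf : TF S f) (hg : TF S g) :
    (Set.univ : Set F).Definable LC {w | f w = g w} := by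
  obtain ⟨s, hs⟩ := hf
  obtain ⟨t, ht⟩ := hg
  refine ⟨s.equal t, ?_⟩
  ext w
  simp [hs, ht]

theorem def_lt {f g : (α → F) → F} (hf : TF (strC lt P) f) (hg : TF (strC lt P) g) :
    @Set.Definable F (Set.univ : Set F) LC (strC lt P) α {w | ltR lt (f w) (g w)} := by
  let _ : LC.Structure F := strC lt P
  obtain ⟨s, hs⟩ := hf
  obtain ⟨t, ht⟩ := hg
  refine ⟨Relations.formula₂ (((LC).lhomWithConstants (Set.univ : Set F)).onRelation (Rel.lt : LC.Relations 2)) s t, ?_⟩
  ext w
  rw [Set.mem_ofPred_eq, Set.mem_ofPred_eq, Formula.realize_rel₂, ← hs, ← ht]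
  rfl

end definability

variable {F : Type u} [Field F] {lt : Fˣ → Fˣ → Prop} {P : (n : ℕ) → Fin n → Fˣ → Prop}

theorem hh_eq {n : ℕ} (x : Fin (n + 1) → Fin 2 → F) :
    hh x = x 0 1 + ∑ i : Fin n, ∑ j : Fin 2, x i.succ j * x 0 0 ^ (2 * (i : ℕ) + j) := by
  rw [hh, qpoly, Polynomial.eval_finsetSum]
  congr 1
  refine Finset.sum_congr rfl fun i _ => ?_
  rw [Polynomial.eval_finsetSum]
  refine Finset.sum_congr rfl fun j _ => ?_
  rw [Polynomial.eval_monomial]

theorem def_RR (e : F) (n : ℕ) :
    @Set.Definable F (Set.univ : Set F) LC (strC lt P) (Fin (n + 1) × Fin 2)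
      {w | RR lt e fun j i => w (j, i)} := by
  let _ : LC.Structure F := strC lt P
  have h1 : {w : Fin (n + 1) × Fin 2 → F | RR lt e fun j i => w (j, i)} =
      ⋃ σ : Equiv.Perm (Fin (n + 1)), ((⋂ p : {p : Fin (n + 1) × Fin (n + 1) // p.1 < p.2},
        ({w | ltR lt (w (σ p.1.2, 0)) (w (σ p.1.1, 0))} ∪
          ({w | w (σ p.1.1, 0) = w (σ p.1.2, 0)} ∩
            {w | ltR lt (w (σ p.1.2, 1)) (w (σ p.1.1, 1))}))) ∩
        {w | ltR lt (hh fun j i => w (σ j, i)) e}) := by
    ext w
    simp only [RR, prec, Set.mem_ofPred_eq, Set.mem_iUnion, Set.mem_inter_iff, Set.mem_iInter,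
      Set.mem_union, Subtype.forall, Prod.forall]
  rw [h1]
  refine Set.definable_iUnion_of_finite fun σ => Set.Definable.inter ?_ ?_
  · refine Set.definable_iInter_of_finite fun p => Set.Definable.union ?_ (Set.Definable.inter ?_ ?_)
    · exact def_lt (TF.var _ _) (TF.var _ _)
    · exact def_eq (TF.var _ _) (TF.var _ _)
    · exact def_lt (TF.var _ _) (TF.var _ _)
  · refine def_lt ?_ (TF.const _ _)
    have h2 : (fun w : Fin (n + 1) × Fin 2 → F => hh fun j i => w (σ j, i)) = fun w =>
        w (σ 0, 1) + ∑ i : Fin n, ∑ j : Fin 2, w (σ i.succ, j) * w (σ 0, 0) ^ (2 * (i : ℕ) + j) := by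
      funext w
      rw [hh_eq]
    rw [h2]
    refine TF.add (TF.var _ _) (TF.sum _ fun i => TF.sum _ fun j => TF.mul (TF.var _ _) ?_)
    exact TF.pow (TF.var _ _) _

theorem def_ne {α : Type} [Finite α] :
    @Set.Definable F (Set.univ : Set F) LC (strC lt P) α {w | ∀ a, w a ≠ 0} := by
  let _ : LC.Structure F := strC lt P
  have h1 : {w : α → F | ∀ a, w a ≠ 0} = ⋂ a, {w | w a = 0}ᶜ := by
    ext w
    simp
  rw [h1]
  exact Set.definable_iInter_of_finite fun a => (def_eq (TF.var _ _) (TF.const _ 0)).compl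

/-- **Every model of ACFO interprets a random `(n + 1)`-hypergraph, for every `n > 0`.** -/
theorem result (F : Type u) [Field F] (lt : Fˣ → Fˣ → Prop) (P : (n : ℕ) → Fin n → Fˣ → Prop)
    (h : IsACFO F lt P) (n : ℕ) (hn : 0 < n) :
    InterpretsRandomHypergraph LC F (strC lt P) n := by
  let _ : LC.Structure F := strC lt P
  obtain ⟨e, he⟩ := h.ordFacts.noMax 1
  set D : Set (Fin 2 → F) := {x | ∀ i, x i ≠ 0} with hD
  set E : Setoid D := ⊥ with hE
  set val : Quotient E → Fin 2 → F := Quotient.lift (fun d : D => (d : Fin 2 → F))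
    (fun a b hab => congrArg _ hab) with hvaldef
  have hval : ∀ x i, val x i ≠ 0 := by
    intro x
    induction x using Quotient.inductionOn with
    | h d => exact d.2
  have hinj : Function.Injective val := by
    intro x y
    induction x using Quotient.inductionOn with
    | h d =>
      induction y using Quotient.inductionOn with
      | h d' =>
        intro hdd
        exact congrArg _ (Subtype.ext hdd)
  refine ⟨2, D, E, fun x => RR lt (e : F) fun i => val (x i), def_ne, ?_, ?_, ?_⟩
  · have h1 : {w : Fin 2 × Fin 2 → F | ∃ (h₀ : (fun i => w (0, i)) ∈ D)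
        (h₁ : (fun i => w (1, i)) ∈ D), E ⟨_, h₀⟩ ⟨_, h₁⟩} =
        {w | ∀ a, w a ≠ 0} ∩ ⋂ i : Fin 2, {w | w (0, i) = w (1, i)} := by
      ext w
      simp only [Set.mem_ofPred_eq, Set.mem_inter_iff, Set.mem_iInter]
      constructor
      · rintro ⟨h₀, h₁, h₂⟩
        refine ⟨?_, fun i => ?_⟩
        · rintro ⟨a, i⟩
          fin_cases a
          · exact h₀ i
          · exact h₁ i
        · exact congrFun (congrArg Subtype.val h₂) i
      · rintro ⟨h₁, h₂⟩
        refine ⟨fun i => h₁ _, fun i => h₁ _, ?_⟩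
        exact Subtype.ext (funext h₂)
    rw [h1]
    exact def_ne.inter (Set.definable_iInter_of_finite fun i => def_eq (TF.var _ _) (TF.var _ _))
  · have h1 : {w : Fin (n + 1) × Fin 2 → F | ∃ h : ∀ j, (fun i => w (j, i)) ∈ D,
        RR lt (e : F) fun j => val (Quotient.mk E ⟨_, h j⟩)} =
        {w | ∀ a, w a ≠ 0} ∩ {w | RR lt (e : F) fun j i => w (j, i)} := by
      ext w
      simp only [Set.mem_ofPred_eq, Set.mem_inter_iff]
      constructor
      · rintro ⟨h₀, h₁⟩
        exact ⟨fun a => h₀ a.1 a.2, h₁⟩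
      · rintro ⟨h₀, h₁⟩
        exact ⟨fun j i => h₀ (j, i), h₁⟩
    rw [h1]
    exact def_ne.inter (def_RR _ _)
  · refine random h he val hinj hval ?_ hn
    intro v
    exact ⟨Quotient.mk E ⟨fun i => (v i : F), fun i => (v i).ne_zero⟩, fun i => rfl⟩

end Pool.Agent.Results.MP_224b2b_lc.RandomHypergraphs
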